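import Mathlib

set_option autoImplicit false

namespace Pool.Agent.Results.MP_ff76d6_ag.UlrichCounterexample

/-- A partition of type `(α, β, γ)`: integers
`a 0 > ... > a (α-1) > b 0 > ... > b (β-1) > c 0 > ... > c (γ-1)`, split into three
blocks of lengths `α`, `β`, `γ`. -/
structure IsBlockPartition (α β γ : ℕ) (a : Fin α → ℤ) (b : Fin β → ℤ) (c : Fin γ → ℤ) :
    Prop where
  anti_a : StrictAnti a
  anti_b : StrictAnti b
  anti_c : StrictAnti c
  b_lt_a : ∀ i j, b j < a i
  c_lt_b : ∀ j k, c k < b j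

/-- The shifted sequence `P(t)`: subtract `2 * t` from the first block, `t` from the second
block and nothing from the third block. The index set is the disjoint union of the three
blocks. -/
def shifted {α β γ : ℕ} (a : Fin α → ℤ) (b : Fin β → ℤ) (c : Fin γ → ℤ) (t : ℤ) :
    Fin α ⊕ (Fin β ⊕ Fin γ) → ℤ :=
  Sum.elim (fun i => a i - 2 * t) (Sum.elim (fun j => b j - t) c)

/-- `(a | b | c)` is an Ulrich partition of type `(α, β, γ)`: it is a partition of this type and
for every `t` with `1 ≤ t ≤ N = αβ + αγ + βγ` the shifted sequence `P(t)` has two equal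
entries. -/
def IsUlrich (α β γ : ℕ) (a : Fin α → ℤ) (b : Fin β → ℤ) (c : Fin γ → ℤ) : Prop :=
  IsBlockPartition α β γ a b c ∧
    ∀ t : ℤ, 1 ≤ t → t ≤ ((α * β + α * γ + β * γ : ℕ) : ℤ) →
      ∃ x y, x ≠ y ∧ shifted a b c t x = shifted a b c t y

/-- There is an Ulrich partition of type `(1, 4, 12)`. -/
theorem result :
    ∃ (a : Fin 1 → ℤ) (b : Fin 4 → ℤ) (c : Fin 12 → ℤ), IsUlrich 1 4 12 a b c := by
  refine ⟨![38], ![10, 9, 2, 1],
    ![0, -2, -4, -6, -16, -22, -32, -38, -48, -50, -52, -54], ⟨?_, ?_, ?_, ?_, ?_⟩, ?_⟩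
  · intro i j h; exfalso; revert h; revert i j; decide
  · intro i j; revert i j; decide
  · intro i j; revert i j; decide
  · decide
  · decide
  · intro t h1 h2
    have h2' : t ≤ 64 := by simpa using h2
    have key : ∀ t ∈ Finset.Icc (1 : ℤ) 64, ∃ x y : Fin 1 ⊕ (Fin 4 ⊕ Fin 12), x ≠ y ∧
        shifted ![38] ![10, 9, 2, 1]
          ![0, -2, -4, -6, -16, -22, -32, -38, -48, -50, -52, -54] t x =
        shifted ![38] ![10, 9, 2, 1]
          ![0, -2, -4, -6, -16, -22, -32, -38, -48, -50, -52, -54] t y := by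
      decide
    exact key t (Finset.mem_Icc.mpr ⟨h1, h2'⟩)

end Pool.Agent.Results.MP_ff76d6_ag.UlrichCounterexample
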